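import Pool.Agent.Results.MP_ac1d8d_gt.PerfectSurface

/-!
# The group of the area preserving diffeomorphisms of the starting example is bounded
-/

set_option autoImplicit false

open scoped Topology ContDiff Manifold commutatorElement
open Pool.Agent.Helper186.Area Pool.Agent.Results.MP_ac1d8d_gt.PerfectSurface

namespace Pool.Agent.Y136.AreaBdd

/-- `g` is a product of four conjugates of `t`, `t⁻¹`, `t` and `t⁻¹`. -/
def FourConj {G : Type} [Group G] (t g : G) : Prop :=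
  ∃ x y z w : G, g = (x * t * x⁻¹) * (y * t⁻¹ * y⁻¹) * ((z * t * z⁻¹) * (w * t⁻¹ * w⁻¹))

/-- A conjugation invariant norm (`ν g = 0` is allowed for `g ≠ 1`). -/
structure IsConjNorm {G : Type} [Group G] (ν : G → ℝ) : Prop where
  nonneg : ∀ g, 0 ≤ ν g
  inv : ∀ g, ν g⁻¹ = ν g
  mul : ∀ g h, ν (g * h) ≤ ν g + ν h
  conj : ∀ g h, ν (h * g * h⁻¹) = ν g

/-- A homogeneous quasimorphism. -/
structure IsHomogQuasi {G : Type} [Group G] (φ : G → ℝ) : Prop where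
  defect : ∃ D : ℝ, ∀ g h, |φ (g * h) - φ g - φ h| ≤ D
  pow : ∀ g (n : ℕ), φ (g ^ n) = n * φ g

section General

variable {G : Type} [Group G]

lemma conjNorm_le {t : G} {ν : G → ℝ} (hν : IsConjNorm ν) {g : G} (h : FourConj t g) :
    ν g ≤ 4 * ν t := by
  obtain ⟨x, y, z, w, rfl⟩ := h
  have h1 := hν.mul ((x * t * x⁻¹) * (y * t⁻¹ * y⁻¹)) ((z * t * z⁻¹) * (w * t⁻¹ * w⁻¹))
  have h2 := hν.mul (x * t * x⁻¹) (y * t⁻¹ * y⁻¹)
  have h3 := hν.mul (z * t * z⁻¹) (w * t⁻¹ * w⁻¹)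
  rw [hν.conj, hν.conj, hν.inv] at h2 h3
  linarith

lemma quasi_eq_zero {t : G} (ht : ∀ g, FourConj t g) {φ : G → ℝ} (hφ : IsHomogQuasi φ) (g : G) :
    φ g = 0 := by
  obtain ⟨D, hD⟩ := hφ.defect
  have h1 : φ 1 = 0 := by
    have := hφ.pow 1 2
    rw [one_pow] at this
    push_cast at this
    linarith
  have hc : ∀ x s : G, |φ (x * s * x⁻¹) - φ s| ≤ 3 * D := by
    intro x s
    have a1 := abs_le.mp (hD (x * s) x⁻¹)
    have a2 := abs_le.mp (hD x s)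
    have a3 := abs_le.mp (hD x x⁻¹)
    rw [mul_inv_cancel, h1] at a3
    rw [abs_le]
    constructor <;> linarith [a1.1, a1.2, a2.1, a2.2, a3.1, a3.2]
  have hb : ∀ g, |φ g| ≤ 15 * D + 2 * |φ t| + 2 * |φ t⁻¹| := by
    intro g
    obtain ⟨x, y, z, w, rfl⟩ := ht g
    have b1 := abs_le.mp (hD ((x * t * x⁻¹) * (y * t⁻¹ * y⁻¹)) ((z * t * z⁻¹) * (w * t⁻¹ * w⁻¹)))
    have b2 := abs_le.mp (hD (x * t * x⁻¹) (y * t⁻¹ * y⁻¹))
    have b3 := abs_le.mp (hD (z * t * z⁻¹) (w * t⁻¹ * w⁻¹))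
    have c1 := abs_le.mp (hc x t)
    have c2 := abs_le.mp (hc y t⁻¹)
    have c3 := abs_le.mp (hc z t)
    have c4 := abs_le.mp (hc w t⁻¹)
    have d1 := neg_abs_le (φ t)
    have d2 := le_abs_self (φ t)
    have d3 := neg_abs_le (φ t⁻¹)
    have d4 := le_abs_self (φ t⁻¹)
    rw [abs_le]
    constructor <;>
      linarith [b1.1, b1.2, b2.1, b2.2, b3.1, b3.2, c1.1, c1.2, c2.1, c2.2, c3.1, c3.2, c4.1, c4.2]
  by_contra hne
  have hpos : 0 < |φ g| := abs_pos.mpr hne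
  obtain ⟨n, hn⟩ := exists_nat_gt ((15 * D + 2 * |φ t| + 2 * |φ t⁻¹|) / |φ g|)
  rw [div_lt_iff₀ hpos] at hn
  have h2 := hb (g ^ n)
  rw [hφ.pow, abs_mul, Nat.abs_cast] at h2
  linarith

end General

/-- Every element of the group is a product of four conjugates. -/
theorem four_perm {φ : Equiv.Perm ℂ} (hφ : φ ∈ surf.G) :
    ∃ x ∈ surf.G, ∃ y ∈ surf.G, ∃ z ∈ surf.G, ∃ w ∈ surf.G,
      φ = (x * Tr 1 * x⁻¹) * (y * (Tr 1)⁻¹ * y⁻¹) *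
        ((z * Tr 1 * z⁻¹) * (w * (Tr 1)⁻¹ * w⁻¹)) := by
  obtain ⟨g, hg, a, ha, b, hb, h1, h2⟩ := exists_decomp hφ
  obtain ⟨Ψ₁, hΨ₁, e1⟩ := swindle (surf.G.mul_mem (surf.G.mul_mem (surf.G.inv_mem ha) hg) ha) h1
  obtain ⟨Ψ₂, hΨ₂, e2⟩ := swindle (surf.G.mul_mem (surf.G.mul_mem (surf.G.inv_mem hb)
    (surf.G.mul_mem (surf.G.inv_mem hg) hφ)) hb) h2
  refine ⟨a * Ψ₁, surf.G.mul_mem ha hΨ₁, a, ha, b * Ψ₂, surf.G.mul_mem hb hΨ₂, b, hb, ?_⟩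
  have c1 : a * ⁅Ψ₁, Tr 1⁆ * a⁻¹ = g := by rw [← e1]; group
  have c2 : b * ⁅Ψ₂, Tr 1⁆ * b⁻¹ = g⁻¹ * φ := by rw [← e2]; group
  have c3 : φ = (a * ⁅Ψ₁, Tr 1⁆ * a⁻¹) * (b * ⁅Ψ₂, Tr 1⁆ * b⁻¹) := by rw [c1, c2]; group
  rw [commutatorElement_def, commutatorElement_def] at c3
  rw [c3]
  group

/-- One element `t` such that all elements are products of four conjugates of `t` and `t⁻¹`. -/
theorem exists_t : ∃ t : DiffArea area, t ≠ 1 ∧ ∀ g : DiffArea area, FourConj t g := by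
  obtain ⟨t, ht⟩ := Ex_surj (Tr_mem 1)
  refine ⟨⟨t, (mem_iff t).2 (by rw [ht]; exact Tr_mem 1)⟩, ?_, ?_⟩
  · intro h
    have h1 : t = 1 := congrArg Subtype.val h
    rw [h1, map_one] at ht
    have h2 : (1 : Equiv.Perm ℂ) 10 = Tr 1 10 := by rw [ht]
    rw [Tr_apply esc_ten, Equiv.Perm.one_apply] at h2
    have h3 := congrArg Complex.re h2
    simp [tau_re] at h3
  intro g
  obtain ⟨a, ha, b, hb, c, hc, d, hd, h⟩ := four_perm ((mem_iff g.1).1 g.2)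
  obtain ⟨a', rfl⟩ := Ex_surj ha
  obtain ⟨b', rfl⟩ := Ex_surj hb
  obtain ⟨c', rfl⟩ := Ex_surj hc
  obtain ⟨d', rfl⟩ := Ex_surj hd
  refine ⟨⟨a', (mem_iff _).2 ha⟩, ⟨b', (mem_iff _).2 hb⟩, ⟨c', (mem_iff _).2 hc⟩,
    ⟨d', (mem_iff _).2 hd⟩, ?_⟩
  apply Subtype.ext
  apply Ex_injective
  rw [h]
  simp only [Subgroup.coe_mul, InvMemClass.coe_inv, map_mul, map_inv, ht]

end Pool.Agent.Y136.AreaBdd
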